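import Pool.Agent.W993.MC.Stm

set_option autoImplicit false

open Filter Topology

namespace Pool.Agent.W154.MC

open Pool.Agent.W993.MC

theorem alt_sum : HasSum (fun n : ℕ => (-1 : ℝ) ^ n / (n : ℝ) ^ 2) (-(Real.pi ^ 2 / 12)) := by
  have hz := hasSum_zeta_two
  have h0 : HasSum (fun k : ℕ => (1 + (-1 : ℝ) ^ (2 * k)) / ((2 * k : ℕ) : ℝ) ^ 2)
      (1 / 2 * (Real.pi ^ 2 / 6)) := by
    have h := hz.mul_left (1 / 2)
    have he : (fun k : ℕ => (1 + (-1 : ℝ) ^ (2 * k)) / ((2 * k : ℕ) : ℝ) ^ 2) =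
        fun k : ℕ => 1 / 2 * (1 / (k : ℝ) ^ 2) := by
      funext k
      rw [pow_mul]
      push_cast
      by_cases hk : (k : ℝ) = 0
      · rw [hk]; simp
      · field_simp
        norm_num
    rw [he]
    exact h
  have h1 : HasSum (fun k : ℕ => (1 + (-1 : ℝ) ^ (2 * k + 1)) / ((2 * k + 1 : ℕ) : ℝ) ^ 2) 0 := by
    have he : (fun k : ℕ => (1 + (-1 : ℝ) ^ (2 * k + 1)) / ((2 * k + 1 : ℕ) : ℝ) ^ 2) =
        fun _ : ℕ => (0 : ℝ) := by
      funext k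
      rw [pow_succ, pow_mul]
      norm_num
    rw [he]
    exact hasSum_zero
  have h2 := (h0.even_add_odd (f := fun n : ℕ => (1 + (-1 : ℝ) ^ n) / (n : ℝ) ^ 2) h1).sub hz
  have he : (fun n : ℕ => (-1 : ℝ) ^ n / (n : ℝ) ^ 2) =
      fun n : ℕ => (1 + (-1 : ℝ) ^ n) / (n : ℝ) ^ 2 - 1 / (n : ℝ) ^ 2 := by
    funext n
    ring
  rw [he]
  have e2 : -(Real.pi ^ 2 / 12) = 1 / 2 * (Real.pi ^ 2 / 6) + 0 - Real.pi ^ 2 / 6 := by ring
  rw [e2]
  exact h2

theorem shift_cast (f : ℕ → ℝ) (s : ℝ) (h : HasSum f s) (h0 : f 0 = 0) :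
    Tendsto (fun M => ∑ l ∈ Finset.range M, ((f (l + 1) : ℝ) : ℂ)) atTop (𝓝 (s : ℂ)) := by
  have h1 : HasSum (fun n => f (n + 1)) s := by
    rw [hasSum_nat_add_iff 1]
    simpa [h0] using h
  have h2 : HasSum (fun n => ((f (n + 1) : ℝ) : ℂ)) (s : ℂ) := by
    exact_mod_cast h1
  exact h2.tendsto_sum_nat

theorem pval : S_P := by
  constructor
  · have h := shift_cast (fun n : ℕ => 1 / (n : ℝ) ^ 2) _ hasSum_zeta_two (by simp)
    have e : (((Real.pi ^ 2 / 6 : ℝ)) : ℂ) = (Real.pi : ℂ) ^ 2 / 6 := by push_cast; rfl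
    rw [← e]
    refine h.congr fun M => ?_
    simp only [S]
    refine Finset.sum_congr rfl fun l _ => ?_
    push_cast
    simp
  · have h := shift_cast _ _ alt_sum (by simp)
    have e : ((-(Real.pi ^ 2 / 12) : ℝ) : ℂ) = -(Real.pi : ℂ) ^ 2 / 12 := by push_cast; ring
    rw [← e]
    refine h.congr fun M => ?_
    simp only [S]
    refine Finset.sum_congr rfl fun l _ => ?_
    push_cast
    simp

end Pool.Agent.W154.MC
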